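import Pool.Agent.V11286.RL.Cov
import Pool.Agent.Results.MP_60d5ce_nt.HyperellipticTwists

/-!
# A good quadratic twist in every coset of a space of polynomials of logarithmic dimension

Let `k` be a finite field of characteristic different from 2 in which `-1` is a square, `K = k(t)`, `n = 2 g + 1 ≥ 3`, and
let `a 1, …, a n` be polynomials over `k` such that all the differences `a i - a j` (`i ≠ j`) have the same degree
`N ≥ 1` and the product of the differences is squarefree. Call a monic squarefree polynomial `D` prime to the differences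
good if for the Jacobian `J_D` of `y ^ 2 = D ∏ (x - a i)` every point of `J_D(K)` is the sum of a point of order at most 2
and of twice a point, and the 2-primary part of the group of the classes which are trivial over the completions at the
places different from infinity is zero. There is a constant `C` such that for all large `m`, `m + N` odd, there is a
vector space `H` of polynomials of degree less than `m`, of dimension at most `log_2 m + C`, such that for EVERY monic
polynomial `f` of degree `m` there is a good polynomial in `f + H`. So every twist by a monic polynomial of degree `m`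
becomes good after the addition of a member of one fixed set of at most `|k| ^ (log_2 m + C)` polynomials, a power of `m`.
-/

set_option autoImplicit false

namespace Pool.Agent.Results.MP_60d5ce_nt.CoveringTranslates

open Polynomial Filter Pool.Agent.V11286.RL
open Pool.Agent.Results.MP_60d5ce_nt.HyperellipticTwists

/-- The monic squarefree polynomials `D` of degree `m`, prime to the differences `a i - a j`, which are good: see
`IsGood` in `HyperellipticTwists`. -/
def Good {k : Type} [Field k] (K : Type) [Field K] [Algebra k[X] K] [IsFractionRing k[X] K] {n : ℕ}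
    (a : Fin n → k[X]) (m : ℕ) : Set k[X] :=
  {D | D ∈ Twists a m ∧ IsGood K a D}

/-- **Theorem.** -/
theorem result (k : Type) [Field k] [Finite k] (h2 : (2 : k) ≠ 0) (hi : IsSquare (-1 : k))
    (K : Type) [Field K] [Algebra k[X] K] [IsFractionRing k[X] K] (n : ℕ) (hn : Odd n)
    (hn3 : 3 ≤ n) (N : ℕ) (hN : 1 ≤ N) (a : Fin n → k[X])
    (ha : ∀ i j, i ≠ j → (a i - a j).natDegree = N) (hs : Squarefree (differences a)) :
    ∃ C : ℕ, ∀ᶠ m : ℕ in atTop, Odd (m + N) → ∃ H : Submodule k k[X], Module.Finite k H ∧
      Module.finrank k H ≤ Nat.log 2 m + C ∧ (∀ h ∈ H, h.degree < m) ∧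
        ∀ f : k[X], f.Monic → f.natDegree = m → ∃ h ∈ H, f + h ∈ Good K a m := by
  obtain ⟨⟨c, hc0, hc⟩, h⟩ := HyperellipticTwists.result k h2 hi K n hn hn3 N hN a ha hs
  have h6 := h (1 / 12) (by norm_num)
  have hc6 : 0 < c / 12 := by positivity
  have hden : ∀ᶠ m : ℕ in atTop, Odd (m + N) → (c / 12) * (Nat.card k : ℝ) ^ m ≤ ((Good K a m).ncard : ℝ) := by
    filter_upwards [hc, h6] with m h7 h8 hm
    have e2 := h8 hm
    have e3 : ((Good K a m).ncard : ℝ) = (({D ∈ Twists a m | IsGood K a D}).ncard : ℝ) := rfl
    rw [e3]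
    nlinarith
  have hsub : ∀ m, Good K a m ⊆ Mon k m := fun m D hD => ⟨hD.1.1, hD.1.2.1⟩
  obtain ⟨C, hC⟩ := pow_unbounded_of_one_lt (Real.log (Nat.card k) / (c / 12)) (one_lt_two : (1 : ℝ) < 2)
  rw [div_lt_iff₀ hc6] at hC
  refine ⟨C + 1, ?_⟩
  filter_upwards [hden, eventually_ge_atTop 1] with m h7 h1 hm
  have hm0 : (0 : ℝ) < m := by exact_mod_cast h1
  have hlog : (m : ℝ) < 2 ^ (Nat.log 2 m + 1) := by exact_mod_cast Nat.lt_pow_succ_log_self (by norm_num) m
  obtain ⟨H, e1, e2, e3, e4⟩ := cosets (s := Nat.log 2 m + (C + 1)) (Good K a m) (hsub m) (h7 hm) (by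
    have h8 : (2 : ℝ) ^ (Nat.log 2 m + (C + 1)) = 2 ^ (Nat.log 2 m + 1) * 2 ^ C := by
      rw [← pow_add]
      congr 1
      ring
    rw [h8]
    have h9 : (0 : ℝ) < c / 12 * 2 ^ C := by positivity
    calc (m : ℝ) * Real.log (Nat.card k) < m * (2 ^ C * (c / 12)) := mul_lt_mul_of_pos_left hC hm0
      _ ≤ 2 ^ (Nat.log 2 m + 1) * (2 ^ C * (c / 12)) := mul_le_mul_of_nonneg_right hlog.le (by positivity)
      _ = c / 12 * (2 ^ (Nat.log 2 m + 1) * 2 ^ C) := by ring)
  exact ⟨H, e1, e2, e3, fun f hf hfm => e4 f ⟨hf, hfm⟩⟩

end Pool.Agent.Results.MP_60d5ce_nt.CoveringTranslates
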