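import Pool.Agent.V1194.LT.Red

/-!
# The leading coefficient of the L-function of a Jacobian in extensions of prime power degree

Jacobians (and abelian varieties, and any Euler products) over a function field of one variable over a
finite field: the leading coefficient at the central point, modulo a prime `ℓ`, does not change in Galois
extensions of degree a power of `ℓ`, for any ramification.
-/

set_option autoImplicit false
set_option linter.all false
set_option maxHeartbeats 4000000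

open Polynomial FF Module Filter Topology Pool.Agent.W343.BSD

namespace Pool.Agent.Results.MP_60d5ce_nt.LeadingTermsModL

section defs

/-- `Λ(T) = ∏ P_v(T ^ (deg v))⁻¹`, the product over the places `v` of `K` over `k`. -/
def IsProduct (k : Type) {K : Type} [Field k] [Field K] [Algebra k K] (P : Place k K → ℤ[X])
    (Λ : PowerSeries ℤ) : Prop :=
  Λ * eulerProd (fun v : Place k K => S.deg v)
    (fun v => ((expand ℤ (S.deg v) (P v) : ℤ[X]) : PowerSeries ℤ)) = 1

/-- `P = ∏ (1 - α_i T)` and `Q = ∏ (1 - α_i ^ f T)` for complex numbers `α_i`. -/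
def IsPower (f : ℕ) (P Q : ℤ[X]) : Prop :=
  ∃ (n : ℕ) (α : Fin n → ℂ), P.map (Int.castRingHom ℂ) = ∏ i, (1 - C (α i) * X) ∧
    Q.map (Int.castRingHom ℂ) = ∏ i, (1 - C (α i ^ f) * X)

/-- The place `w` of `L` lies over the place `v` of `K`, with the ramification index `e`. The fields of
constants `k` and `k'` may be different. -/
def LiesOver {k K k' L : Type} [Field k] [Field K] [Algebra k K] [Field k'] [Field L]
    [Algebra k' L] [Algebra K L] (w : Place k' L) (v : Place k K) (e : ℕ) : Prop :=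
  0 < e ∧ ∀ f : K, w.ord (algebraMap K L f) = e * v.ord f

/-- The places of `L` over the places in `T`. -/
def Above {k K : Type} (k' L : Type) [Field k] [Field K] [Algebra k K] [Field k'] [Field L]
    [Algebra k' L] [Algebra K L] (T : Finset (Place k K)) : Set (Place k' L) :=
  {w | ∃ v ∈ T, ∃ e : ℕ, LiesOver w v e}

/-- The place `v` of `K` is ramified in `L`. -/
def Ramified {k K : Type} (k' L : Type) [Field k] [Field K] [Algebra k K] [Field k'] [Field L]
    [Algebra k' L] [Algebra K L] (v : Place k K) : Prop :=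
  ∃ (w : Place k' L) (e : ℕ), LiesOver w v e ∧ e ≠ 1

/-- The multiplicity of the zero `x` of `A`. -/
noncomputable def multAt {F : Type} [Field F] (x : F) (A : F[X]) : ℕ := A.rootMultiplicity x

/-- The leading coefficient of `A` at `x ≠ 0`: the value at `x` of `A / (1 - X / x) ^ m`, with the
multiplicity `m` of the zero `x` (written with the division by the monic polynomial `(X - x) ^ m`). -/
noncomputable def leadAt {F : Type} [Field F] (x : F) (A : F[X]) : F :=
  (-x) ^ multAt x A * (A /ₘ (X - C x) ^ multAt x A).eval x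

/-- The order of vanishing of `A` at `q ^ (-b)`. -/
noncomputable def order (q b : ℕ) (A : ℤ[X]) : ℕ :=
  multAt ((q : ℚ) ^ b)⁻¹ (A.map (Int.castRingHom ℚ))

/-- The leading coefficient of `A` at `q ^ (-b)`, a rational number: the value at `q ^ (-b)` of
`A / (1 - q ^ b X) ^ r` with the order of vanishing `r`. -/
noncomputable def leading (q b : ℕ) (A : ℤ[X]) : ℚ :=
  leadAt ((q : ℚ) ^ b)⁻¹ (A.map (Int.castRingHom ℚ))

/-- The multiplicity modulo `ℓ` of the zero `q ^ (-b)` of `A`. -/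
noncomputable def mult (ℓ : ℕ) [Fact ℓ.Prime] (q b : ℕ) (A : ℤ[X]) : ℕ :=
  multAt (((q : ℕ) : ZMod ℓ) ^ b)⁻¹ (A.map (Int.castRingHom (ZMod ℓ)))

/-- The leading coefficient at `q ^ (-b)` of the reduction of `A` modulo `ℓ`. -/
noncomputable def lead (ℓ : ℕ) [Fact ℓ.Prime] (q b : ℕ) (A : ℤ[X]) : ZMod ℓ :=
  leadAt (((q : ℕ) : ZMod ℓ) ^ b)⁻¹ (A.map (Int.castRingHom (ZMod ℓ)))

/-- The value of the reduction of `A` modulo `ℓ` at `q ^ (-b)`. -/
noncomputable def value (ℓ : ℕ) [Fact ℓ.Prime] (q b : ℕ) (A : ℤ[X]) : ZMod ℓ :=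
  (A.map (Int.castRingHom (ZMod ℓ))).eval (((q : ℕ) : ZMod ℓ) ^ b)⁻¹

/-- The rational number `x` is integral at `ℓ` and `y` is its residue class modulo `ℓ`. -/
def ReducesTo (ℓ : ℕ) [Fact ℓ.Prime] (x : ℚ) (y : ZMod ℓ) : Prop :=
  ∃ a d : ℤ, ¬ (ℓ : ℤ) ∣ d ∧ x = (a : ℚ) / d ∧ y = (a : ZMod ℓ) / d

end defs

open Pool.Agent.V1194.LT in
/-- **Invariance of the leading coefficients modulo `ℓ`.**

Let `K` be the function field of a curve over a finite field `k` with `q` elements, `ℓ` a prime different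
from the characteristic and `L` a finite Galois extension of `K` of degree a power of `ℓ` (any
ramification, any group), with the field of constants `k'` with `q'` elements. Let `P_v`, `P'_w` be
integral polynomials with constant coefficient `1` for the places of `K` and `L`, with the Euler products
`Λ`, `Λ'`, and `T` a finite set of places of `K`, such that for `w` over `v ∉ T` with residue degree `f`
the reciprocal zeros of `P'_w` are the `f`-th powers of those of `P_v`. Let `Λ V = U`, `Λ' W = R` with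
integral polynomials, `V(0) = W(0) = 1`.

The example for this problem, with `b = 1`: `J` is the Jacobian of a curve over `K`, `P_v = L_v(J, T)`,
`P'_w = L_w(J, T)` over `L`, and `T` contains the places which are ramified in `L` and where `J` does
not have semistable reduction over `K`; `Λ(q ^ (-s)) = L(J / K, s)`, and `V = W = 1` if `J` has no
constant part over the algebraic closure of `k`.

(1) For every polynomial `A` with `A(0) = 1`: `A = (1 - q ^ b X) ^ r H` with the order `r` of vanishing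
and `H(q ^ (-b))` the leading coefficient, a rational number different from `0`, and
`A(q ^ (-s)) / (s - b) ^ r` tends to `(log q) ^ r` times it for `s → b`. It is integral at `ℓ`; it is a
unit at `ℓ` if and only if `r` is the multiplicity of the zero modulo `ℓ`, and then its residue class is
the leading coefficient of the reduction modulo `ℓ`, which is always different from `0`.

(2) The leading coefficients modulo `ℓ` satisfy
`lead(R) lead(V) ∏_{w over T} lead(P'_w) = lead(W) lead(U) ∏_{v in T} lead(P_v)`, without any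
hypothesis on the ramified places and on the multiplicities. So `lead(R) = lead(U)` for the Jacobian of
a curve without constant part with semistable reduction at the ramified places.

(3) Let `T` be empty and `V = W = 1`. If the leading coefficients of `U` and `R` are units at `ℓ`, they are
congruent modulo `ℓ`: `L*(J / L, 1) / (log q') ^ r' ≡ L*(J / K, 1) / (log q) ^ r mod ℓ`.

(4) Let `T` be empty and `V = W = 1`. The central value `R(q' ^ (-b))` is congruent to `U(q ^ (-b))` modulo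
`ℓ` if `P_v(q_v ^ (-b))` is different from `0` modulo `ℓ` for all ramified places `v`, and congruent to
`0` otherwise. -/
theorem result (k K k' L : Type) [Field k] [Finite k] [Field K] [Algebra k K] [Field k'] [Finite k']
    [Field L] [Algebra k' L] [Algebra k k'] [Algebra k L] [Algebra K L] [IsScalarTower k K L]
    [IsScalarTower k k' L] [FiniteDimensional K L] [IsGalois K L]
    (hK : IsCurveField k K) (hL : IsCurveField k' L) (ℓ s : ℕ) [Fact ℓ.Prime] (hℓ : (ℓ : k) ≠ 0)
    (hdeg : finrank K L = ℓ ^ s) (b : ℕ) (P : Place k K → ℤ[X]) (P' : Place k' L → ℤ[X])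
    (hP : ∀ v, (P v).coeff 0 = 1) (hP' : ∀ w, (P' w).coeff 0 = 1) (T : Finset (Place k K))
    (hPP' : ∀ (v : Place k K) (w : Place k' L) (e f : ℕ), v ∉ T → LiesOver w v e →
      Nat.card (S.Res w) = Nat.card (S.Res v) ^ f → IsPower f (P v) (P' w))
    (Λ Λ' : PowerSeries ℤ) (hΛ : IsProduct k P Λ) (hΛ' : IsProduct k' P' Λ')
    (U V R W : ℤ[X]) (hV : V.coeff 0 = 1) (hU : Λ * (V : PowerSeries ℤ) = (U : PowerSeries ℤ))
    (hW : W.coeff 0 = 1) (hR : Λ' * (W : PowerSeries ℤ) = (R : PowerSeries ℤ)) :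
    (∀ (q : ℕ) (A : ℤ[X]), 1 < q → ¬ ℓ ∣ q → A.coeff 0 = 1 →
      (∃ H : ℤ[X], A = (1 - C ((q : ℤ) ^ b) * X) ^ order q b A * H ∧
        (H.map (Int.castRingHom ℚ)).eval ((q : ℚ) ^ b)⁻¹ = leading q b A) ∧
      leading q b A ≠ 0 ∧
      Tendsto (fun s : ℂ => (A.map (Int.castRingHom ℂ)).eval ((q : ℂ) ^ (-s)) /
        (s - b) ^ order q b A) (𝓝[≠] (b : ℂ))
        (𝓝 ((Real.log q : ℂ) ^ order q b A * (leading q b A : ℚ))) ∧
      (∃ G : (ZMod ℓ)[X], A.map (Int.castRingHom (ZMod ℓ)) =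
          (1 - C (((q : ℕ) : ZMod ℓ) ^ b) * X) ^ mult ℓ q b A * G ∧
        G.eval (((q : ℕ) : ZMod ℓ) ^ b)⁻¹ = lead ℓ q b A) ∧
      lead ℓ q b A ≠ 0 ∧
      ∃ y : ZMod ℓ, ReducesTo ℓ (leading q b A) y ∧ (y ≠ 0 ↔ order q b A = mult ℓ q b A) ∧
        (y ≠ 0 → y = lead ℓ q b A)) ∧
    (Above k' L T).Finite ∧
    lead ℓ (Nat.card k') b R * lead ℓ (Nat.card k) b V *
        (∏ᶠ w ∈ Above k' L T, lead ℓ (Nat.card k') b (expand ℤ (S.deg w) (P' w))) =
      lead ℓ (Nat.card k') b W * lead ℓ (Nat.card k) b U *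
        ∏ v ∈ T, lead ℓ (Nat.card k) b (expand ℤ (S.deg v) (P v)) ∧
    (T = ∅ → V = 1 → W = 1 →
      (order (Nat.card k) b U = mult ℓ (Nat.card k) b U →
        order (Nat.card k') b R = mult ℓ (Nat.card k') b R →
        ∃ y : ZMod ℓ, y ≠ 0 ∧ ReducesTo ℓ (leading (Nat.card k) b U) y ∧
          ReducesTo ℓ (leading (Nat.card k') b R) y) ∧
      ReducesTo ℓ ((U.map (Int.castRingHom ℚ)).eval ((Nat.card k : ℚ) ^ b)⁻¹)
        (value ℓ (Nat.card k) b U) ∧
      ReducesTo ℓ ((R.map (Int.castRingHom ℚ)).eval ((Nat.card k' : ℚ) ^ b)⁻¹)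
        (value ℓ (Nat.card k') b R) ∧
      ((∀ v : Place k K, Ramified k' L v → value ℓ (Nat.card (S.Res v)) b (P v) ≠ 0) →
        value ℓ (Nat.card k') b R = value ℓ (Nat.card k) b U) ∧
      ((∃ v : Place k K, Ramified k' L v ∧ value ℓ (Nat.card (S.Res v)) b (P v) = 0) →
        value ℓ (Nat.card k') b R = 0)) := by
  classical
  have i1 : FF.IsFF k K := ⟨hK.essFiniteType, hK.trdeg_eq_one⟩
  have i2 : FF.IsFF k' L := ⟨hL.essFiniteType, hL.trdeg_eq_one⟩
  have i3 : FF.IsFF k L := isFF_of_finite (K := K)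
  have hℓp : ℓ.Prime := Fact.out
  have hD := fun v : Place k K => exists_galoisFiber (L := L) v
  choose St e f D using hD
  have hepos : ∀ v, 0 < e v := by
    intro v
    obtain ⟨w, hw⟩ := (D v).nonempty
    exact ((D v).isOver w hw).1
  have hram : ∀ v, Ramified k' L v ↔ e v ≠ 1 := by
    intro v
    constructor
    · rintro ⟨w, n, hw, hn⟩
      have h2 : Over (downPlace (k := k) w) v n := ⟨hw.1, hw.2⟩
      have h3 := (D v).isOver _ ((D v).mem _ _ h2)
      have h4 : (n : ℤ) = e v := by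
        obtain ⟨t, ht⟩ := v.surj
        have h5 := hw.2 t
        have h6 := h3.2 t
        have h7 : (downPlace (k := k) w).ord (algebraMap K L t) = w.ord (algebraMap K L t) := rfl
        rw [h7, h5] at h6
        rw [ht.2, mul_one, mul_one] at h6
        exact h6
      intro h8
      apply hn
      rw [h8] at h4
      exact_mod_cast h4
    · intro h
      obtain ⟨w, hw⟩ := (D v).nonempty
      have h3 := (D v).isOver _ hw
      exact ⟨upPlace w, e v, ⟨h3.1, h3.2⟩, h⟩
  have hfin : {v : Place k K | e v ≠ 1}.Finite := by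
    refine (Pool.Agent.Y701.R1.ram_finite (k := k) (K := K) (L := L)).subset ?_
    intro v hv
    obtain ⟨w, hw⟩ := (D v).nonempty
    exact ⟨w, e v, (D v).isOver w hw, hv⟩
  set B : Finset (Place k K) := hfin.toFinset with hBd
  have hB : ∀ v, v ∉ B → e v = 1 := by
    intro v hv
    rw [hBd, Set.Finite.mem_toFinset] at hv
    by_contra h
    exact hv h
  have hBm : ∀ v, v ∈ B → e v ≠ 1 := by
    intro v hv
    rw [hBd, Set.Finite.mem_toFinset] at hv
    exact hv
  -- the places over `T`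
  have hAfin : (Above k' L T).Finite := by
    refine ((T.biUnion fun v => (St v).image fun w => upPlace (k' := k') w).finite_toSet).subset ?_
    rintro w ⟨v, hv, e', hw⟩
    rw [Finset.mem_coe, Finset.mem_biUnion]
    refine ⟨v, hv, Finset.mem_image.2 ⟨downPlace (k := k) w, (D v).mem _ e' ⟨hw.1, hw.2⟩, rfl⟩⟩
  set TL : Finset (Place k' L) := hAfin.toFinset with hTLd
  have hTL : ∀ w, w ∈ TL ↔ ∃ v ∈ T, ∃ e : ℕ, Pool.Agent.V1173.KA.LiesOver w v e := by
    intro w
    rw [hTLd, Set.Finite.mem_toFinset]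
    exact Iff.rfl
  -- the products
  have hdK : ∀ v : Place k K, 0 < v.deg := fun v => Pool.Agent.H525R3.FFp.deg_pos v
  have hdL : ∀ v : Place k' L, 0 < v.deg := fun v => Pool.Agent.H525R3.FFp.deg_pos v
  have hΛ1 : Λ * eulerProd (fun v : Place k K => v.deg)
      (fun v => Pool.Agent.Y701.PE.sub v.deg (P v : PowerSeries ℤ)) = 1 := by
    have h1 := hΛ
    unfold IsProduct at h1
    simp only [S.deg_eq] at h1
    rw [← h1]
    congr 2
    funext v
    exact Pool.Agent.Y701.PE.sub_poly (hdK v).ne' (P v)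
  have hΛ'1 : Λ' * eulerProd (fun w : Place k' L => w.deg)
      (fun w => Pool.Agent.Y701.PE.sub w.deg (P' w : PowerSeries ℤ)) = 1 := by
    have h1 := hΛ'
    unfold IsProduct at h1
    simp only [S.deg_eq] at h1
    rw [← h1]
    congr 2
    funext v
    exact Pool.Agent.Y701.PE.sub_poly (hdL v).ne' (P' v)
  have hU0 : U.coeff 0 = 1 := coeff_of hP hΛ1 hV hU
  have hR0 : R.coeff 0 = 1 := coeff_of hP' hΛ'1 hW hR
  have hmain := T_poly (k' := k') (l := ℓ) hdeg D B hB hP hP' T hPP' TL hTL hΛ1 hΛ'1 hU hR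
  -- the constants
  have hj : Module.Finite k k' := Module.Finite.of_finite
  have hkk : finrank k k' ≠ 0 := finrank_pos.ne'
  obtain ⟨i, hi⟩ := constants_pow (L := L) hK.algClosed hdeg hkk
  have hqk : ((Nat.card k : ℕ) : ZMod ℓ) ≠ 0 := card_ne_zero_mod (k := k) hℓ
  have hℓk' : (ℓ : k') ≠ 0 := by
    rw [← map_natCast (algebraMap k k')]
    exact (_root_.map_ne_zero _).2 hℓ
  have hqk' : ((Nat.card k' : ℕ) : ZMod ℓ) ≠ 0 := card_ne_zero_mod (k := k') hℓk'
  set x : ZMod ℓ := (((Nat.card k : ℕ) : ZMod ℓ) ^ b)⁻¹ with hx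
  have hx0 : x ≠ 0 := inv_ne_zero (pow_ne_zero _ hqk)
  have hx' : (((Nat.card k' : ℕ) : ZMod ℓ) ^ b)⁻¹ = x := by
    rw [Module.natCard_eq_pow_finrank (K := k) (V := k'), hi]
    push_cast
    rw [ZMod.pow_card_pow]
  -- the nonvanishing of the polynomials
  have hne : ∀ A : ℤ[X], A.coeff 0 = 1 → rd ℓ A ≠ 0 := fun A hA =>
    Pool.Agent.Y701.PE.map_ne_of_coeff hA
  have hEc : ∀ v ∈ T, (expand ℤ v.deg (P v)).coeff 0 = 1 := fun v _ => by
    rw [Pool.Agent.Y701.PE.coeff_zero_expand (hdK v), hP v]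
  have hEc' : ∀ w ∈ TL, (expand ℤ w.deg (P' w)).coeff 0 = 1 := fun w _ => by
    rw [Pool.Agent.Y701.PE.coeff_zero_expand (hdL w), hP' w]
  have hIc : ∀ v : Place k K, (expand ℤ v.deg (if v ∈ T then 1 else P v)).coeff 0 = 1 := by
    intro v
    rw [Pool.Agent.Y701.PE.coeff_zero_expand (hdK v)]
    split_ifs
    · simp
    · exact hP v
  have hepow : ∀ v, ∃ a c : ℕ, e v = ℓ ^ a ∧ ℓ ^ s / e v = ℓ ^ c ∧ a + c = s := by
    intro v
    have h1 : e v ∣ ℓ ^ s := by
      rw [← hdeg, ← (D v).mul]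
      exact (dvd_mul_right _ _).mul_left _
    obtain ⟨a, ha, hea⟩ := (Nat.dvd_prime_pow hℓp).1 h1
    refine ⟨a, s - a, hea, ?_, by omega⟩
    rw [hea, Nat.pow_div ha hℓp.pos]
  -- the leading coefficients
  have key2 : ld x (rd ℓ R) * ld x (rd ℓ V) * (∏ w ∈ TL, ld x (rd ℓ (expand ℤ w.deg (P' w)))) =
      ld x (rd ℓ W) * ld x (rd ℓ U) * ∏ v ∈ T, ld x (rd ℓ (expand ℤ v.deg (P v))) := by
    have hprodI : ∀ n : Place k K → ℕ, (∏ v ∈ B, rd ℓ (expand ℤ v.deg
        (if v ∈ T then 1 else P v)) ^ n v) ≠ 0 := fun n =>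
      Finset.prod_ne_zero_iff.2 fun v _ => pow_ne_zero _ (hne _ (hIc v))
    have hUE : (U * ∏ v ∈ T, expand ℤ v.deg (P v)).coeff 0 = 1 := by
      rw [Polynomial.mul_coeff_zero, hU0, Pool.Agent.V1173.KA.coeff_prod _ hEc, one_mul]
    have hRE : (R * ∏ w ∈ TL, expand ℤ w.deg (P' w)).coeff 0 = 1 := by
      rw [Polynomial.mul_coeff_zero, hR0, Pool.Agent.V1173.KA.coeff_prod _ hEc', one_mul]
    have hexp0 : ∀ A : ℤ[X], A.coeff 0 = 1 → expand (ZMod ℓ) (ℓ ^ i) (rd ℓ A) ≠ 0 := by
      intro A hA h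
      exact hne A hA ((Polynomial.expand_eq_zero (pow_pos hℓp.pos i)).1 h)
    have h1 := congrArg (ld x) hmain
    rw [hi] at h1
    rw [ld_mul hx0 (mul_ne_zero (hexp0 W hW) (pow_ne_zero _ (hne _ hUE))) (hprodI _),
      ld_mul hx0 (hexp0 W hW) (pow_ne_zero _ (hne _ hUE)), ld_expand hx0 (hne W hW),
      ld_pow_l hx0 (hne _ hUE),
      ld_mul hx0 (mul_ne_zero (hexp0 _ hRE) (pow_ne_zero _ (hne _ hV))) (hprodI _),
      ld_mul hx0 (hexp0 _ hRE) (pow_ne_zero _ (hne _ hV)), ld_expand hx0 (hne _ hRE),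
      ld_pow_l hx0 (hne _ hV),
      ld_prod hx0 _ fun v _ => pow_ne_zero _ (hne _ (hIc v)),
      ld_prod hx0 _ fun v _ => pow_ne_zero _ (hne _ (hIc v))] at h1
    have h2 : ∀ v ∈ B, ld x (rd ℓ (expand ℤ v.deg (if v ∈ T then 1 else P v)) ^ ℓ ^ s) =
        ld x (rd ℓ (expand ℤ v.deg (if v ∈ T then 1 else P v))) := fun v _ =>
      ld_pow_l hx0 (hne _ (hIc v)) s
    have h3 : ∀ v ∈ B, ld x (rd ℓ (expand ℤ v.deg (if v ∈ T then 1 else P v)) ^ (ℓ ^ s / e v)) =
        ld x (rd ℓ (expand ℤ v.deg (if v ∈ T then 1 else P v))) := by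
      intro v _
      obtain ⟨a, c, -, h4, -⟩ := hepow v
      rw [h4]
      exact ld_pow_l hx0 (hne _ (hIc v)) c
    rw [Finset.prod_congr rfl h2, Finset.prod_congr rfl h3] at h1
    have h4 : (∏ v ∈ B, ld x (rd ℓ (expand ℤ v.deg (if v ∈ T then 1 else P v)))) ≠ 0 :=
      Finset.prod_ne_zero_iff.2 fun v _ => ld_ne hx0 (hne _ (hIc v))
    have h5 := mul_right_cancel₀ h4 h1
    have h6 : rd ℓ (U * ∏ v ∈ T, expand ℤ v.deg (P v)) =
        rd ℓ U * ∏ v ∈ T, rd ℓ (expand ℤ v.deg (P v)) := by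
      unfold rd
      rw [Polynomial.map_mul, Polynomial.map_prod]
    have h7 : rd ℓ (R * ∏ w ∈ TL, expand ℤ w.deg (P' w)) =
        rd ℓ R * ∏ w ∈ TL, rd ℓ (expand ℤ w.deg (P' w)) := by
      unfold rd
      rw [Polynomial.map_mul, Polynomial.map_prod]
    rw [h6, h7, ld_mul hx0 (hne U hU0) (Finset.prod_ne_zero_iff.2 fun v hv => hne _ (hEc v hv)),
      ld_mul hx0 (hne R hR0) (Finset.prod_ne_zero_iff.2 fun v hv => hne _ (hEc' v hv)),
      ld_prod hx0 _ (fun v hv => hne _ (hEc v hv)),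
      ld_prod hx0 _ (fun v hv => hne _ (hEc' v hv))] at h5
    linear_combination -h5
  have hlead : ∀ A : ℤ[X], lead ℓ (Nat.card k) b A = ld x (rd ℓ A) := fun A => rfl
  have hlead' : ∀ A : ℤ[X], lead ℓ (Nat.card k') b A = ld x (rd ℓ A) := by
    intro A
    have h : lead ℓ (Nat.card k') b A = ld (((Nat.card k' : ℕ) : ZMod ℓ) ^ b)⁻¹ (rd ℓ A) := rfl
    rw [h, hx']
  have hlt := Finite.one_lt_card (α := k)
  have hlt' := Finite.one_lt_card (α := k')
  have hgen : ∀ (q : ℕ) (A : ℤ[X]), 1 < q → ((q : ℕ) : ZMod ℓ) ≠ 0 → A.coeff 0 = 1 →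
      (∃ H : ℤ[X], A = (1 - C ((q : ℤ) ^ b) * X) ^ order q b A * H ∧
        (H.map (Int.castRingHom ℚ)).eval ((q : ℚ) ^ b)⁻¹ = leading q b A) ∧
      leading q b A ≠ 0 ∧
      Tendsto (fun s : ℂ => (A.map (Int.castRingHom ℂ)).eval ((q : ℂ) ^ (-s)) /
        (s - b) ^ order q b A) (𝓝[≠] (b : ℂ))
        (𝓝 ((Real.log q : ℂ) ^ order q b A * (leading q b A : ℚ))) ∧
      (∃ G : (ZMod ℓ)[X], A.map (Int.castRingHom (ZMod ℓ)) =
          (1 - C (((q : ℕ) : ZMod ℓ) ^ b) * X) ^ mult ℓ q b A * G ∧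
        G.eval (((q : ℕ) : ZMod ℓ) ^ b)⁻¹ = lead ℓ q b A) ∧
      lead ℓ q b A ≠ 0 ∧
      ∃ y : ZMod ℓ, ReducesTo ℓ (leading q b A) y ∧ (y ≠ 0 ↔ order q b A = mult ℓ q b A) ∧
        (y ≠ 0 → y = lead ℓ q b A) := by
    intro q A hq1 hq hA
    obtain ⟨H, a1, a2, a3, y, a4, a5, a6⟩ := lead_facts (b := b) hq hA
    have hy0 : (((q : ℕ) : ZMod ℓ) ^ b)⁻¹ ≠ 0 := inv_ne_zero (pow_ne_zero _ hq)
    obtain ⟨G, b1, b2, b3⟩ := exists_ld hy0 (hne A hA)
    refine ⟨⟨H, a1, a2⟩, a3, ?_, ⟨G, ?_, b2⟩, b3, y, a4, a5, a6⟩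
    · have h := lead_limit hq1 a1
      rw [a2] at h
      exact h
    · rw [inv_inv] at b1
      exact b1
  refine ⟨fun q A hq1 hq hA => hgen q A hq1 (fun h => hq ((ZMod.natCast_eq_zero_iff q ℓ).1 h)) hA,
    hAfin, ?_, ?_⟩
  · rw [finprod_mem_eq_finite_toFinset_prod _ hAfin, ← hTLd]
    simp only [hlead, hlead', S.deg_eq]
    exact key2
  · rintro rfl rfl rfl
    have hTL0 : TL = ∅ := by
      rw [Finset.eq_empty_iff_forall_notMem]
      intro w hw
      obtain ⟨v, hv, -⟩ := (hTL w).1 hw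
      exact absurd hv (Finset.notMem_empty v)
    have hRU : lead ℓ (Nat.card k') b R = lead ℓ (Nat.card k) b U := by
      have h := key2
      rw [hTL0, Finset.prod_empty, Finset.prod_empty, mul_one, mul_one] at h
      have h1 : rd ℓ (1 : ℤ[X]) = 1 := Polynomial.map_one _
      rw [h1, ld_one hx0, mul_one, one_mul] at h
      rw [hlead, hlead', h]
    refine ⟨?_, ?_, ?_, ?_⟩
    · intro h1 h2
      obtain ⟨-, -, -, -, c1, y, c2, c3, c4⟩ := hgen _ U hlt hqk hU0
      obtain ⟨-, -, -, -, d1, z, d2, d3, d4⟩ := hgen _ R hlt' hqk' hR0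
      have hy := c3.2 h1
      have hz := d3.2 h2
      refine ⟨y, hy, c2, ?_⟩
      rw [c4 hy, ← hRU, ← d4 hz]
      exact d2
    · exact red_eval U (red_inv hqk)
    · exact red_eval R (red_inv hqk')
    · -- the values
      have hval : ∀ A : ℤ[X], value ℓ (Nat.card k) b A = (rd ℓ A).eval x := fun A => rfl
      have hval' : ∀ A : ℤ[X], value ℓ (Nat.card k') b A = (rd ℓ A).eval x := by
        intro A
        have h : value ℓ (Nat.card k') b A =
          (rd ℓ A).eval (((Nat.card k' : ℕ) : ZMod ℓ) ^ b)⁻¹ := rfl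
        rw [h, hx']
      have hlocv : ∀ v : Place k K, (rd ℓ (expand ℤ v.deg (P v))).eval x =
          value ℓ (Nat.card (S.Res v)) b (P v) := by
        intro v
        unfold rd value
        rw [Polynomial.map_expand, expand_eval, hx, Pool.Agent.V1173.KA.card_res v]
        congr 1
        rw [inv_pow, ← pow_mul]
        push_cast
        rw [← pow_mul, mul_comm b]
      have hm := hmain
      simp only [Finset.notMem_empty, if_false, Finset.prod_empty, mul_one, hTL0] at hm
      have h1 : rd ℓ (1 : ℤ[X]) = 1 := Polynomial.map_one _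
      rw [h1, map_one, one_mul, one_pow, mul_one, hi] at hm
      have hfac : (∏ v ∈ B, rd ℓ (expand ℤ v.deg (P v)) ^ ℓ ^ s) =
          (∏ v ∈ B, rd ℓ (expand ℤ v.deg (P v)) ^ (ℓ ^ s - ℓ ^ s / e v)) *
            ∏ v ∈ B, rd ℓ (expand ℤ v.deg (P v)) ^ (ℓ ^ s / e v) := by
        rw [← Finset.prod_mul_distrib]
        refine Finset.prod_congr rfl fun v _ => ?_
        rw [← pow_add, Nat.sub_add_cancel (Nat.div_le_self _ _)]
      rw [hfac, ← mul_assoc] at hm
      have hcan : (∏ v ∈ B, rd ℓ (expand ℤ v.deg (P v)) ^ (ℓ ^ s / e v)) ≠ 0 :=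
        Finset.prod_ne_zero_iff.2 fun v _ => pow_ne_zero _ (hne _ (by
          rw [Pool.Agent.Y701.PE.coeff_zero_expand (hdK v), hP v]))
      have hm2 := congrArg (Polynomial.eval x) (mul_right_cancel₀ hcan hm)
      rw [eval_mul, eval_pow, ZMod.pow_card_pow, expand_eval, ZMod.pow_card_pow,
        Polynomial.eval_prod] at hm2
      simp only [eval_pow, hlocv] at hm2
      rw [← hval, ← hval'] at hm2
      constructor
      · intro h
        rw [← hm2]
        have h2 : ∀ v ∈ B, value ℓ (Nat.card (S.Res v)) b (P v) ^ (ℓ ^ s - ℓ ^ s / e v) = 1 := by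
          intro v hv
          have hy := h v ((hram v).2 (hBm v hv))
          obtain ⟨a, c, -, h4, h5⟩ := hepow v
          rw [h4]
          have h6 : ℓ ^ c ≤ ℓ ^ s := Nat.pow_le_pow_right hℓp.pos (by omega)
          have h7 : value ℓ (Nat.card (S.Res v)) b (P v) ^ (ℓ ^ s - ℓ ^ c) *
              value ℓ (Nat.card (S.Res v)) b (P v) ^ ℓ ^ c =
              value ℓ (Nat.card (S.Res v)) b (P v) ^ ℓ ^ s := by
            rw [← pow_add, Nat.sub_add_cancel h6]
          rw [ZMod.pow_card_pow, ZMod.pow_card_pow] at h7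
          exact mul_right_cancel₀ hy (by rw [h7, one_mul])
        rw [Finset.prod_congr rfl h2, Finset.prod_const_one, mul_one]
      · rintro ⟨v, hv, h0⟩
        rw [← hm2]
        have hvB : v ∈ B := by
          rw [hBd, Set.Finite.mem_toFinset]
          exact (hram v).1 hv
        rw [Finset.prod_eq_zero hvB, mul_zero]
        rw [h0]
        refine zero_pow ?_
        obtain ⟨a, c, ha, h4, h5⟩ := hepow v
        have ha0 : a ≠ 0 := by
          rintro rfl
          exact hBm v hvB (by rw [ha, pow_zero])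
        rw [h4]
        have h6 : ℓ ^ c < ℓ ^ s := Nat.pow_lt_pow_right hℓp.one_lt (by omega)
        omega

end Pool.Agent.Results.MP_60d5ce_nt.LeadingTermsModL
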