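import Pool.Agent.V11286.RL.Prog
import Pool.Agent.Results.MP_60d5ce_nt.HyperellipticTwists

/-!
# Arithmetic progressions and differences of quadratic twists of a hyperelliptic Jacobian without 2-primary part

Let `k` be a finite field of characteristic different from 2 in which `-1` is a square, `K = k(t)`, `n = 2 g + 1 ≥ 3`, and
let `a 1, …, a n` be polynomials over `k` such that all the differences `a i - a j` (`i ≠ j`) have the same degree
`N ≥ 1` and the product of the differences is squarefree. Call a monic squarefree polynomial `D` prime to the differences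
good if for the Jacobian `J_D` of `y ^ 2 = D ∏ (x - a i)` every point of `J_D(K)` is the sum of a point of order at most 2
and of twice a point, and the 2-primary part of the group of the classes which are trivial over the completions at the
places different from infinity is zero. For all large `m`, `m + N` odd:

1. there are three-term arithmetic progressions `D, D + E, D + 2 E` of good polynomials of degree `m`, `E ≠ 0` of degree
  less than `m`;
2. for a constant `r` of any `r` polynomials `E_1, …, E_r` of degree less than `m` two have a difference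
  `E_i - E_j = D' - D` with good `D`, `D'` of degree `m`;
3. for a constant `h` and all `E ≠ 0` of degree at most `m - h` there are good `D ≠ D'` of degree `m` which are congruent
  modulo `E`, with a quotient `(D' - D) / E` of degree less than `h`.
-/

set_option autoImplicit false

namespace Pool.Agent.Results.MP_60d5ce_nt.ProgressionsOfTwists

open Polynomial Filter Pool.Agent.V11286.RL
open Pool.Agent.Results.MP_60d5ce_nt.HyperellipticTwists

/-- The monic squarefree polynomials `D` of degree `m`, prime to the differences `a i - a j`, which are good: see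
`IsGood` in `HyperellipticTwists`. -/
def Good {k : Type} [Field k] (K : Type) [Field K] [Algebra k[X] K] [IsFractionRing k[X] K] {n : ℕ}
    (a : Fin n → k[X]) (m : ℕ) : Set k[X] :=
  {D | D ∈ Twists a m ∧ IsGood K a D}

/-- **Theorem.** -/
theorem result (k : Type) [Field k] [Finite k] (h2 : (2 : k) ≠ 0) (hi : IsSquare (-1 : k))
    (K : Type) [Field K] [Algebra k[X] K] [IsFractionRing k[X] K] (n : ℕ) (hn : Odd n)
    (hn3 : 3 ≤ n) (N : ℕ) (hN : 1 ≤ N) (a : Fin n → k[X])
    (ha : ∀ i j, i ≠ j → (a i - a j).natDegree = N) (hs : Squarefree (differences a)) :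
    (∀ᶠ m : ℕ in atTop, Odd (m + N) → ∃ D E : k[X], E ≠ 0 ∧ E.degree < m ∧
      D ∈ Good K a m ∧ D + E ∈ Good K a m ∧ D + 2 * E ∈ Good K a m) ∧
    (∃ r : ℕ, ∀ᶠ m : ℕ in atTop, Odd (m + N) → ∀ E : Fin r → k[X], (∀ i, (E i).degree < m) →
      ∃ i j, i < j ∧ ∃ D ∈ Good K a m, D + (E i - E j) ∈ Good K a m) ∧
    (∃ h : ℕ, ∀ᶠ m : ℕ in atTop, Odd (m + N) → ∀ E : k[X], E ≠ 0 → E.natDegree + h ≤ m →
      ∃ g : k[X], g ≠ 0 ∧ g.degree < h ∧ ∃ D ∈ Good K a m, D + E * g ∈ Good K a m) := by
  obtain ⟨⟨c, hc0, hc⟩, h⟩ := HyperellipticTwists.result k h2 hi K n hn hn3 N hN a ha hs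
  have h6 := h (1 / 12) (by norm_num)
  have hc6 : 0 < c / 12 := by positivity
  have hden : ∀ᶠ m : ℕ in atTop, Odd (m + N) → (c / 12) * (Nat.card k : ℝ) ^ m ≤ ((Good K a m).ncard : ℝ) := by
    filter_upwards [hc, h6] with m h7 h8 hm
    have e2 := h8 hm
    have e3 : ((Good K a m).ncard : ℝ) = (({D ∈ Twists a m | IsGood K a D}).ncard : ℝ) := rfl
    rw [e3]
    nlinarith
  have hsub : ∀ m, Good K a m ⊆ Mon k m := fun m D hD => ⟨hD.1.1, hD.1.2.1⟩
  refine ⟨?_, ?_, ?_⟩
  · filter_upwards [hden, roth (k := k) hc6] with m h7 h8 hm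
    obtain ⟨D, E, e1, e2, e3, e4, e5⟩ := h8 _ (hsub m) (h7 hm)
    exact ⟨D, E, e1, mem_degreeLT.1 e2, e3, e4, e5⟩
  · obtain ⟨r, hr⟩ := exists_nat_gt (1 / (c / 12))
    rw [div_lt_iff₀ hc6] at hr
    refine ⟨r, ?_⟩
    filter_upwards [hden] with m h7 hm E hE
    exact diffs hr _ (hsub m) (h7 hm) E (fun i => mem_degreeLT.2 (hE i))
  · obtain ⟨h, hh⟩ := multiples (k := k) hc6
    refine ⟨h, ?_⟩
    filter_upwards [hden] with m h7 hm E hE0 hE
    exact hh m _ (hsub m) (h7 hm) E hE0 hE

end Pool.Agent.Results.MP_60d5ce_nt.ProgressionsOfTwists
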