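import Pool.Agent.Y709.Kum.CountF
import Pool.Agent.Y709.Kum.CountH
import Pool.Agent.Y709.Irr.Sq

/-!
# Kummer twists of superelliptic Jacobians with ramification at the collisions, and over all the
# `p`-coverings of one fixed curve

The Jacobians of the curves `y ^ (q - 1) = D(t) B(t) ∏ (x - β_i(t)) ^ (m_i)` over the Galois extensions `L`
of `k(t)`, `k ⊇ 𝔽_q` a finite field of characteristic `p`, whose Galois group is an extension of an abelian
group of exponent dividing `μ`, a divisor of `q - 1`, by a `p`-group, as in the file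
`AbelianByPExtensions`. There the ramification was not allowed to meet the bad places of the pencil
(`B` was prime to the differences of the sections `β_i`), and the proportion of the exceptional `D`
was bounded by `2 e μ ^ (ω + 1) / q`, where `ω` is the number of the irreducible factors of `B`. Here

* `B` is arbitrary: the twist and the coverings `L` may be (tamely) ramified at the places where two
  sections collide, where the untwisted curve has bad reduction;
* for all the coverings of `p`-power degree (Galois over the line) of ONE fixed curve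
  `w_i ^ μ = γ_i(t)`, `i = 1, …, a`, the proportion of the exceptional `D` is at most
  `2 e μ ^ a / q`, however large `ω` is: for the line itself `2 e / q`, for a hyperelliptic curve
  with branch points at zeros of `B` (`μ = 2`, `a = 1`) it is `4 e / q`.

The general theorems are proved in `Pool.Agent.Y709.Kum.CountG` and `CountF` (library).
-/

set_option autoImplicit false

open Polynomial

namespace Pool.Agent.Results.MP_60d5ce_nt.RamifiedCollisions

section generic

/-- The closed points of the affine line over the field `F`: monic irreducible polynomials. -/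
abbrev ClosedPt (F : Type) [Field F] : Type := {P : F[X] // P.Monic ∧ Irreducible P}

variable {F : Type} [Field F]

/-- The degree of a closed point of the affine line over `F`. -/
noncomputable def ptDegree (P : ClosedPt F) : ℕ := P.1.natDegree

/-- The polynomial `c ∏ (x - b_i) ^ (m_i)` over `F`. -/
noncomputable def fibre {n : ℕ} (c : F) (b : Fin n → F) (m : Fin n → ℕ) : F[X] :=
  C c * ∏ i, (X - C (b i)) ^ m i

/-- The norm to `k` of the value of the polynomial `g` over `F` at the closed point `Q` of the affine
line over the extension `F` of `k`. -/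
noncomputable def normValue {k : Type} [Field k] [Algebra k F] (g : F[X]) (Q : ClosedPt F) : k :=
  Algebra.norm k (AdjoinRoot.mk Q.1 g)

/-- The Euler product: its coefficient of index `n` is that of the product of the factors of degree
at most `n`. -/
noncomputable def eulerProduct {ι : Type} (d : ι → ℕ) (f : ι → PowerSeries ℂ) : PowerSeries ℂ :=
  PowerSeries.mk fun n => PowerSeries.coeff n (∏ᶠ (i : ι) (_ : d i ≤ n), f i)

end generic

section points

variable {k : Type} [Field k] {O : Type} [CommRing O] [Algebra k[X] O]

/-- The residue field of a closed point of `Spec O`, for an algebra `O` over `k[t]`. -/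
def Res (𝔪 : MaximalSpectrum O) : Type := O ⧸ 𝔪.asIdeal

attribute [local instance] MaximalSpectrum.isMaximal in
noncomputable instance resField (𝔪 : MaximalSpectrum O) : Field (Res 𝔪) :=
  Ideal.Quotient.field 𝔪.asIdeal

/-- The value at `𝔪` of a polynomial in `t`. -/
noncomputable def value (𝔪 : MaximalSpectrum O) : k[X] →+* Res 𝔪 :=
  (Ideal.Quotient.mk 𝔪.asIdeal).comp (algebraMap k[X] O)

noncomputable instance resAlgebra (𝔪 : MaximalSpectrum O) : Algebra k (Res 𝔪) :=
  ((value 𝔪).comp C).toAlgebra

/-- The closed points of the product of `Spec O` and the `x`-line: a closed point of `Spec O` and a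
closed point of the `x`-line over its residue field. -/
structure SurfacePt (O : Type) [CommRing O] : Type where
  place : MaximalSpectrum O
  point : ClosedPt (Res place)

variable (k) in
/-- The degree of a closed point over `k`. -/
noncomputable def SurfacePt.deg (z : SurfacePt O) : ℕ :=
  Module.finrank k (Res z.place) * ptDegree z.point

/-- A finite group `G` acts on the ring `O ⊇ k[t]` faithfully and with the ring of invariants `k[t]`, so
that `Spec O` is a Galois covering of the line with the group `G`. There are elements `w_1, …, w_a` of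
`O` such that the powers `w_i ^ μ` are polynomials in `t` whose zeros are zeros of `B`, every element of the
group multiplies every `w_i` by a constant, and the elements which fix all `w_i` form a `p`-group: so the
group is an extension of an abelian group of exponent dividing `μ` by a `p`-group. The covering is
unramified at the points where `E(t)` is not zero: the inertia groups are trivial. -/
structure IsLayer (p μ : ℕ) (B E : k[X]) (G O : Type) [Group G] [Finite G] [CommRing O]
    [Algebra k[X] O] [MulSemiringAction G O] : Prop where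
  galois : IsGaloisGroup G k[X] O
  injective : Function.Injective (algebraMap k[X] O)
  kummer : ∃ (a : ℕ) (w : Fin a → O) (γ : Fin a → k[X]), (∀ i, γ i ≠ 0) ∧
    (∀ i, ∀ P : k[X], Irreducible P → P ∣ γ i → P ∣ B) ∧
    (∀ i, w i ^ μ = algebraMap k[X] O (γ i)) ∧
    (∀ i, ∀ σ : G, ∃ c : k, σ • w i = algebraMap k[X] O (C c) * w i) ∧
    ∀ σ : G, (∀ i, σ • w i = w i) → ∃ n : ℕ, σ ^ p ^ n = 1
  unramified : ∀ 𝔪 : MaximalSpectrum O, algebraMap k[X] O E ∉ 𝔪.asIdeal →
    𝔪.asIdeal.inertia G = ⊥

/-- As `IsLayer`, for the coverings of the fixed curve `w_i ^ μ = γ_i(t)`, `i = 1, …, a`: a finite group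
`G` acts on the ring `O ⊇ k[t]` faithfully and with the ring of invariants `k[t]`; `O` contains elements
`w_i` with `w_i ^ μ = γ_i`, every element of the group multiplies every `w_i` by a constant, and the
elements which fix all `w_i` form a `p`-group. The covering is unramified at the points where `E(t)` is
not zero. -/
structure IsLayerOver (p μ : ℕ) {a : ℕ} (γ : Fin a → k[X]) (E : k[X]) (G O : Type) [Group G]
    [Finite G] [CommRing O] [Algebra k[X] O] [MulSemiringAction G O] : Prop where
  galois : IsGaloisGroup G k[X] O
  injective : Function.Injective (algebraMap k[X] O)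
  kummer : ∃ w : Fin a → O, (∀ i, w i ^ μ = algebraMap k[X] O (γ i)) ∧
    (∀ i, ∀ σ : G, ∃ c : k, σ • w i = algebraMap k[X] O (C c) * w i) ∧
    ∀ σ : G, (∀ i, σ • w i = w i) → ∃ n : ℕ, σ ^ p ^ n = 1
  unramified : ∀ 𝔪 : MaximalSpectrum O, algebraMap k[X] O E ∉ 𝔪.asIdeal →
    𝔪.asIdeal.inertia G = ⊥

end points

section defs

variable {k : Type} [Field k]

variable (k) in
/-- The data `B(t)`, `β_i(t)`, `m_i` of a pencil `y ^ (q - 1) = B(t) ∏ (x - β_i(t)) ^ (m_i)` with
`r + 1` sections `β_i`. -/
structure Pencil (r : ℕ) : Type where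
  coef : k[X]
  root : Fin (r + 1) → k[X]
  mult : Fin (r + 1) → ℕ

/-- The degree `n` of the pencil in `x`: the sum of the multiplicities. -/
def Pencil.degX {r : ℕ} (S : Pencil k r) : ℕ := ∑ i, S.mult i

/-- The product of the differences `β_j - β_i` over `i < j`; its zeros are the collisions. -/
noncomputable def Pencil.differences {r : ℕ} (S : Pencil k r) : k[X] :=
  ∏ i, ∏ j ∈ Finset.Ioi i, (S.root j - S.root i)

/-- The number of the monic irreducible factors of `B`. -/
noncomputable def Pencil.factors {r : ℕ} (S : Pencil k r) : ℕ :=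
  {P : k[X] | P.Monic ∧ Irreducible P ∧ P ∣ S.coef}.ncard

/-- The pencil has simple collisions, and its sections have the degree `d`: the differences of the
sections `β_i` have exactly the degree `d ≥ 1`, and their product is squarefree. The multiplicities `m_i`
are positive, `B` is not zero, and no zero of `B` has a multiplicity above `b`. (`B` need not be prime to
the differences.) -/
structure Pencil.Simple {r : ℕ} (S : Pencil k r) (d b : ℕ) : Prop where
  deg_pos : 0 < d
  root_deg : ∀ i, (S.root i).natDegree ≤ d
  diff_deg : ∀ i j, i ≠ j → (S.root i - S.root j).natDegree = d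
  diff_sq : Squarefree S.differences
  mult_pos : ∀ i, 0 < S.mult i
  coef_ne : S.coef ≠ 0
  coef_mult : ∀ P : k[X], Irreducible P → ¬ P ^ (b + 1) ∣ S.coef

/-- The norm to `k` of the value of `D(t) B(t) ∏ (x - β_i(t)) ^ (m_i)` at a closed point. -/
noncomputable def Pencil.norm {r : ℕ} (S : Pencil k r) {O : Type} [CommRing O] [Algebra k[X] O]
    (D : k[X]) (z : SurfacePt O) : k :=
  normValue (fibre (value z.place (D * S.coef)) (fun i => value z.place (S.root i)) S.mult) z.point

/-- The `L`-function in the variable `T = (#k) ^ (-s)` of the `χ`-part of the surface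
`y ^ (q - 1) = D(t) B(t) ∏ (x - β_i(t)) ^ (m_i)` over the covering `Spec O` of the `t`-line: the product
over the closed points `z` of `Spec O × 𝔸¹` of the factors `1 - χ(N z) T ^ (deg z)`, where `N z` is the
norm to `k` of the value of `D(t) B(t) ∏ (x - β_i(t)) ^ (m_i)` at `z`, and `χ(0) = 0`. -/
noncomputable def Pencil.Lfun {r : ℕ} (S : Pencil k r) (O : Type) [CommRing O] [Algebra k[X] O]
    (χ : MulChar k ℂ) (D : k[X]) : PowerSeries ℂ :=
  eulerProduct (fun z : SurfacePt O => z.deg k)
    (fun z => 1 - PowerSeries.C (χ (S.norm D z)) * PowerSeries.X ^ z.deg k)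

/-- The power series `L` in `T` is the product of a polynomial and of `1 - Q ζ T` for a complex number
`ζ` with `ζ ^ e = 1`: it vanishes at a point with `(Q T) ^ e = 1`. -/
def Vanishes (Q e : ℕ) (L : PowerSeries ℂ) : Prop :=
  ∃ ζ : ℂ, ζ ^ e = 1 ∧ ∃ G : ℂ[X], L = (((1 - C ((Q : ℂ) * ζ) * X) * G : ℂ[X]) : PowerSeries ℂ)

variable (k) in
/-- The polynomials `D` of degree at most `N`. -/
def twists (N : ℕ) : Set k[X] := {D | D.natDegree ≤ N}

/-- The polynomials `D` of degree at most `N` such that over some Galois covering of the line whose group is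
an extension of an abelian group of exponent dividing `μ` by a `p`-group, as above, unramified outside of the
zeros of `D B` (and `∞`), the `L`-function of one of the characters `χ` of exact order `q - 1` vanishes at a
point with `(#k T) ^ e = 1`. -/
def Pencil.vanishingTwists {r : ℕ} (S : Pencil k r) (p q μ e N : ℕ) : Set k[X] :=
  {D | D ∈ twists k N ∧ ∃ (G O : Type) (_ : Group G) (_ : Finite G) (_ : CommRing O)
    (_ : Algebra k[X] O) (_ : MulSemiringAction G O), IsLayer p μ S.coef (D * S.coef) G O ∧
      ∃ χ : MulChar k ℂ, orderOf χ = q - 1 ∧ Vanishes (Nat.card k) e (S.Lfun O χ D)}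

/-- The polynomials `D` of degree at most `N` such that over some covering of the curve
`w_i ^ μ = γ_i(t)`, as in `IsLayerOver`, unramified outside of the zeros of `D B` (and `∞`), the
`L`-function of one of the characters `χ` of exact order `q - 1` vanishes at a point with
`(#k T) ^ e = 1`. -/
def Pencil.vanishingTwistsOver {r : ℕ} (S : Pencil k r) (p q μ e N : ℕ) {a : ℕ}
    (γ : Fin a → k[X]) : Set k[X] :=
  {D | D ∈ twists k N ∧ ∃ (G O : Type) (_ : Group G) (_ : Finite G) (_ : CommRing O)
    (_ : Algebra k[X] O) (_ : MulSemiringAction G O), IsLayerOver p μ γ (D * S.coef) G O ∧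
      ∃ χ : MulChar k ℂ, orderOf χ = q - 1 ∧ Vanishes (Nat.card k) e (S.Lfun O χ D)}

theorem Lfun_eq {r : ℕ} (S : Pencil k r) (O : Type) [CommRing O] [Algebra k[X] O]
    (χ : MulChar k ℂ) (D : k[X]) :
    S.Lfun O χ D = Pool.Agent.Y709.Lay.LO O χ (D * S.coef) S.root S.mult := by
  unfold Pencil.Lfun Pool.Agent.Y709.Lay.LO eulerProduct Pool.Agent.W343.BSD.eulerProd
  ext n
  rw [PowerSeries.coeff_mk, PowerSeries.coeff_mk]
  congr 1
  let E : (Σ 𝔪 : MaximalSpectrum O, Pool.Agent.W313.Hyp.MI (Pool.Agent.Y709.Lay.RO k 𝔪)) ≃
      SurfacePt O :=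
    { toFun := fun z => ⟨z.1, z.2⟩
      invFun := fun z => ⟨z.place, z.point⟩
      left_inv := fun _ => rfl
      right_inv := fun _ => rfl }
  exact (finprod_comp_equiv E
    (f := fun z : SurfacePt O => ∏ᶠ (_ : z.deg k ≤ n),
      (1 - PowerSeries.C (χ (S.norm D z)) * PowerSeries.X ^ z.deg k : PowerSeries ℂ))).symm

end defs

/-- **The conjecture of Birch and Swinnerton-Dyer for almost all Kummer twists of superelliptic Jacobians,
with ramification at the collisions, over all abelian-by-`p` extensions of `k(t)`.**

Let `q` be a power of the prime number `p`, let `k` be a finite extension of the field with `q` elements,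
let `μ` be a divisor of `q - 1`, and `κ = (q - 1) / μ`. Let `β_0, …, β_r` be polynomials in `k[t]` of degree at
most `d ≥ 1` with simple collisions: all differences `β_i - β_j` have exactly the degree `d`, and their
product is squarefree. Let `m_i ≥ 1` be integers with the sum `n < p`, and let `B ≠ 0` be ANY polynomial
without zeros of a multiplicity above `b`, with `ω` monic irreducible factors; suppose that
`r n ≤ q - 1`, `4 (r + 1) ^ 2 ≤ q` and `n + b + 3 r + 3 ≤ κ`. There is no condition on the degree `d` of the
sections, and none on the position of the zeros of `B`: since `ord_P B + m_i + m_j < q - 1`, also at the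
zeros `P` of `B` where two sections collide the new part of the twisted curve has no Euler factor, and
its `L`-function is the one below (up to Euler factors at multiple zeros of `D`, which do not matter for
the nonvanishing).

For `D ≠ 0` in `k[t]` let `A_D` be the new part of the Jacobian of the curve
`y ^ (q - 1) = D(t) B(t) ∏ (x - β_i(t)) ^ (m_i)` over `k(t)`: the part of the characters of exact order `q - 1`
of the group of roots of unity. Let the polynomials `D` be those of degree at most `N`, where
`N + f = κ M + ρ`, `f = deg B + d n`, `2 r < ρ < κ`.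

1. Let `M ≥ 8 μ q (r + 1) ^ 2 (f + 1)`. Then for all `D` except a proportion `2 e μ ^ (ω + 1) / q` none of
   the `L`-functions of `A_D` vanishes at a point `T` with `(#k T) ^ e = 1`, over any of the coverings
   in `IsLayer`: their groups are extensions of abelian groups of exponent dividing `μ` by `p`-groups,
   tamely ramified over zeros of `B` and `∞` only.
2. Let `γ_1, …, γ_a ≠ 0` be polynomials all of whose zeros are zeros of `B`, and let
   `M ≥ 8 μ (r + 1) ^ 2 (f + (q - 1) ∑ deg γ_i + 1)`. Then the same is true for all `D` except a proportion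
   `2 e μ ^ a / q`, over all the coverings in `IsLayerOver`: the coverings of `p`-power degree, Galois
   over the line, of the curve `w_i ^ μ = γ_i(t)`.

For the other `D` (with a simple zero where `B ∏ (β_i - β_j)` is not zero) `A_D` has rank zero over all
these extensions and over their constant extensions of degree `e`, the order of the `L`-function at `s = 1`
is zero, the Tate–Shafarevich group is finite, and the formula of Birch and Swinnerton-Dyer holds (Tate,
Milne, Kato–Trihan). -/
theorem result (k : Type) [Field k] [Finite k] (p : ℕ) [Fact p.Prime] [CharP k p] (a s q : ℕ)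
    (ha : 0 < a) (hs : 0 < s) (hq : q = p ^ a) (hk : Nat.card k = q ^ s) (μ κ : ℕ) (hμ : 0 < μ)
    (hμκ : μ * κ = q - 1) (r : ℕ) (S : Pencil k r) (d b : ℕ) (hS : S.Simple d b)
    (hchar : S.degX < p) (hdeg : r * S.degX ≤ q - 1) (hr : 4 * (r + 1) ^ 2 ≤ q)
    (hb : S.degX + b + 3 * r + 3 ≤ κ) (e : ℕ) (he : e ∣ q - 1) (f : ℕ)
    (hf : f = S.coef.natDegree + d * S.degX) (M ρ N : ℕ) (hρ : 2 * r < ρ) (hρκ : ρ < κ)
    (hN : N + f = κ * M + ρ) :
    (twists k N).ncard = Nat.card k ^ (N + 1) ∧
    (8 * μ * q * (r + 1) ^ 2 * (f + 1) ≤ M →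
      q * (S.vanishingTwists p q μ e N).ncard ≤
        2 * e * μ ^ (S.factors + 1) * (twists k N).ncard) ∧
    ∀ (c : ℕ) (γ : Fin c → k[X]), (∀ i, γ i ≠ 0) →
      (∀ i, ∀ P : k[X], Irreducible P → P ∣ γ i → P ∣ S.coef) →
      8 * μ * (r + 1) ^ 2 * (f + (q - 1) * (∑ i, (γ i).natDegree) + 1) ≤ M →
        q * (S.vanishingTwistsOver p q μ e N γ).ncard ≤ 2 * e * μ ^ c * (twists k N).ncard := by
  have hFt : Fintype k := Fintype.ofFinite k
  have h0 : (twists k N).ncard = Nat.card k ^ (N + 1) :=
    Pool.Agent.Y709.ncard_natDegree_le N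
  have hsimple := Pool.Agent.Y709.Irr.simple_of hS.deg_pos hS.root_deg hS.diff_deg hS.diff_sq
  refine ⟨h0, fun hM => ?_, fun c γ hγ0 hγ hM => ?_⟩
  · rw [h0]
    have h7 := Pool.Agent.Y709.Kum.countGX (k := k) (p := p) Pool.Agent.Y363.Kum.kummerDegreeFam
      Pool.Agent.Y468.Kum.kummerProd Pool.Agent.Y427.Kum.kummerOrder hq ha hs
      (by rw [← Nat.card_eq_fintype_card, hk]) S.coef hS.coef_ne b hS.coef_mult hsimple
      hS.mult_pos hchar hdeg hμ hμκ hb hr f ρ M N e hf he (by omega) (by omega) hM hN
    refine le_trans (Nat.mul_le_mul_left q (Set.ncard_le_ncard ?_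
      ((Pool.Agent.Y709.finite_natDegree_le N).subset fun D hD => hD.1))) h7
    rintro D ⟨hD, G, O, i1, i2, i3, i4, i5, hL, χ, hχ, ζ, hζ, H, hH⟩
    have i6 := hL.galois
    have i7 : FaithfulSMul k[X] O := (faithfulSMul_iff_algebraMap_injective _ _).2 hL.injective
    obtain ⟨a', w, γ, hγ0, hγ, hw, hact, hst⟩ := hL.kummer
    refine ⟨hD, G, O, i1, i2, i3, i4, i5, i6, i7, a', w, γ, hγ0, hγ, hw, hact, ?_, ?_, χ, hχ, ζ, hζ,
      H, ?_⟩
    · rintro ⟨σ, hσ⟩
      obtain ⟨n, h1⟩ := hst σ fun i => by
        have h2 := (Subgroup.mem_iInf.1 hσ) i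
        exact MulAction.mem_stabilizer_iff.1 h2
      exact ⟨n, Subtype.ext h1⟩
    · intro 𝔪 h𝔪
      apply hL.unramified
      intro h0
      exact h𝔪 ((Pool.Agent.Y709.Lay.vO_eq_zero k).2 h0)
    · rw [← Lfun_eq, hH]
  · rw [h0]
    have h7 := Pool.Agent.Y709.Kum.countFX (k := k) (p := p) Pool.Agent.Y363.Kum.kummerDegreeFam
      Pool.Agent.Y468.Kum.kummerProd Pool.Agent.Y427.Kum.kummerOrder hq ha hs
      (by rw [← Nat.card_eq_fintype_card, hk]) S.coef hS.coef_ne b hS.coef_mult hsimple
      hS.mult_pos hchar hdeg hμ hμκ γ hγ0 hγ hb hr f ρ M N e hf he (by omega) (by omega)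
      (le_trans (le_of_eq (by ring)) hM) hN
    refine le_trans (Nat.mul_le_mul_left q (Set.ncard_le_ncard ?_
      ((Pool.Agent.Y709.finite_natDegree_le N).subset fun D hD => hD.1))) h7
    rintro D ⟨hD, G, O, i1, i2, i3, i4, i5, hL, χ, hχ, ζ, hζ, H, hH⟩
    have i6 := hL.galois
    have i7 : FaithfulSMul k[X] O := (faithfulSMul_iff_algebraMap_injective _ _).2 hL.injective
    obtain ⟨w, hw, hact, hst⟩ := hL.kummer
    refine ⟨hD, G, O, i1, i2, i3, i4, i5, i6, i7, w, hw, hact, ?_, ?_, χ, hχ, ζ, hζ, H, ?_⟩
    · rintro ⟨σ, hσ⟩
      obtain ⟨n, h1⟩ := hst σ fun i => by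
        have h2 := (Subgroup.mem_iInf.1 hσ) i
        exact MulAction.mem_stabilizer_iff.1 h2
      exact ⟨n, Subtype.ext h1⟩
    · intro 𝔪 h𝔪
      apply hL.unramified
      intro h0
      exact h𝔪 ((Pool.Agent.Y709.Lay.vO_eq_zero k).2 h0)
    · rw [← Lfun_eq, hH]

end Pool.Agent.Results.MP_60d5ce_nt.RamifiedCollisions
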